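import Pool.Agent.helper62.VQ.SpecF

/-!
# Row `PCI` (MP_07c750_an, project VQ): square roots in the calculus of `CB`
-/

set_option autoImplicit false

open scoped MatrixGroups ContDiff Topology UpperHalfPlane
open UpperHalfPlane MeasureTheory Filter Set

namespace Pool.Agent.VQE

section PCIaux

variable {V : Type} [NormedAddCommGroup V] [NormedSpace ℝ V] {s : Set V} {A : ℝ} {G : V → ℝ}

lemma PCI_pos (hA2 : A ≤ 1 / 2) (hG : CB s A G) {x : V} (hx : x ∈ s) :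
    1 / 2 ≤ 1 + G x ∧ 1 + G x ≤ 3 / 2 := by
  have h := hG.b0 x hx
  rw [Real.norm_eq_abs, abs_le] at h
  constructor <;> linarith [h.1, h.2]

lemma PCI_sqrt (hA2 : A ≤ 1 / 2) (hG : CB s A G) {x : V} (hx : x ∈ s) :
    7 / 10 ≤ Real.sqrt (1 + G x) := by
  apply Real.le_sqrt_of_sq_le
  have := (PCI_pos hA2 hG hx).1
  linarith

lemma PCI_inv (hA2 : A ≤ 1 / 2) (hG : CB s A G) {x : V} (hx : x ∈ s) :
    0 < (Real.sqrt (1 + G x))⁻¹ ∧ (Real.sqrt (1 + G x))⁻¹ ≤ 3 / 2 := by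
  have h := PCI_sqrt hA2 hG hx
  have h0 : 0 < Real.sqrt (1 + G x) := by linarith
  refine ⟨inv_pos.mpr h0, ?_⟩
  rw [inv_le_comm₀ h0 (by norm_num)]
  linarith

lemma PCI_lip (hs : Convex ℝ s) (hG : CB s A G) {x y : V} (hx : x ∈ s) (hy : y ∈ s) :
    |G x - G y| ≤ A * ‖x - y‖ := by
  have := hs.norm_image_sub_le_of_norm_fderiv_le (𝕜 := ℝ) hG.diff hG.b1 hy hx
  simpa [Real.norm_eq_abs] using this

lemma PCI_sub (hA2 : A ≤ 1 / 2) (hG : CB s A G) {x y : V} (hx : x ∈ s) (hy : y ∈ s) :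
    |Real.sqrt (1 + G x) - Real.sqrt (1 + G y)| ≤ |G x - G y| := by
  have ha := PCI_sqrt hA2 hG hx
  have hb := PCI_sqrt hA2 hG hy
  have hpx := (PCI_pos hA2 hG hx).1
  have hpy := (PCI_pos hA2 hG hy).1
  have ha2 : Real.sqrt (1 + G x) * Real.sqrt (1 + G x) = 1 + G x := Real.mul_self_sqrt (by linarith)
  have hb2 : Real.sqrt (1 + G y) * Real.sqrt (1 + G y) = 1 + G y := Real.mul_self_sqrt (by linarith)
  set a := Real.sqrt (1 + G x) with hadef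
  set b := Real.sqrt (1 + G y) with hbdef
  have h1 : G x - G y = (a - b) * (a + b) := by nlinarith
  rw [h1, abs_mul]
  have h2 : 1 ≤ |a + b| := by
    rw [abs_of_nonneg (by linarith)]
    linarith
  nlinarith [abs_nonneg (a - b)]

lemma PCI_invsub (hA2 : A ≤ 1 / 2) (hG : CB s A G) {x y : V} (hx : x ∈ s) (hy : y ∈ s) :
    |(Real.sqrt (1 + G x))⁻¹ - (Real.sqrt (1 + G y))⁻¹| ≤ 9 / 4 * |G x - G y| := by
  have ha := PCI_sqrt hA2 hG hx
  have hb := PCI_sqrt hA2 hG hy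
  have hp := PCI_inv hA2 hG hx
  have hq := PCI_inv hA2 hG hy
  have h1 := PCI_sub hA2 hG hx hy
  set a := Real.sqrt (1 + G x) with hadef
  set b := Real.sqrt (1 + G y) with hbdef
  have ha0 : a ≠ 0 := by intro h; rw [h] at ha; norm_num at ha
  have hb0 : b ≠ 0 := by intro h; rw [h] at hb; norm_num at hb
  have h2 : a⁻¹ - b⁻¹ = -((a - b) * (a⁻¹ * b⁻¹)) := by
    field_simp
    ring
  rw [h2, abs_neg, abs_mul, abs_of_pos (mul_pos hp.1 hq.1)]
  have h3 : a⁻¹ * b⁻¹ ≤ 9 / 4 := by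
    calc a⁻¹ * b⁻¹ ≤ 3 / 2 * (3 / 2) := mul_le_mul hp.2 hq.2 hq.1.le (by norm_num)
      _ = 9 / 4 := by norm_num
  calc |a - b| * (a⁻¹ * b⁻¹) ≤ |G x - G y| * (9 / 4) :=
        mul_le_mul h1 h3 (mul_pos hp.1 hq.1).le (abs_nonneg _)
    _ = 9 / 4 * |G x - G y| := by ring

lemma PCI_smul (hs : Convex ℝ s) (hA : 0 ≤ A) (hG : CB s A G) (c : V → ℝ) (C₀ C₁ : ℝ)
    (hC1 : 0 ≤ C₁)
    (h0 : ∀ x ∈ s, |c x| ≤ C₀) (h1 : ∀ x ∈ s, ∀ y ∈ s, |c x - c y| ≤ C₁ * |G x - G y|)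
    {x y : V} (hx : x ∈ s) (hy : y ∈ s) :
    ‖c x • fderiv ℝ G x - c y • fderiv ℝ G y‖ ≤ (C₁ * A ^ 2 + C₀ * A) * ‖x - y‖ := by
  have e : c x • fderiv ℝ G x - c y • fderiv ℝ G y =
      (c x - c y) • fderiv ℝ G x + c y • (fderiv ℝ G x - fderiv ℝ G y) := by
    module
  rw [e]
  have hl := PCI_lip hs hG hx hy
  calc ‖(c x - c y) • fderiv ℝ G x + c y • (fderiv ℝ G x - fderiv ℝ G y)‖
      ≤ ‖(c x - c y) • fderiv ℝ G x‖ + ‖c y • (fderiv ℝ G x - fderiv ℝ G y)‖ := norm_add_le _ _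
    _ = |c x - c y| * ‖fderiv ℝ G x‖ + |c y| * ‖fderiv ℝ G x - fderiv ℝ G y‖ := by
        rw [norm_smul, norm_smul, Real.norm_eq_abs, Real.norm_eq_abs]
    _ ≤ (C₁ * (A * ‖x - y‖)) * A + C₀ * (A * ‖x - y‖) := by
        refine add_le_add ?_ ?_
        · refine mul_le_mul ((h1 x hx y hy).trans ?_) (hG.b1 x hx) (norm_nonneg _) ?_
          · exact mul_le_mul_of_nonneg_left hl hC1
          · exact mul_nonneg hC1 (mul_nonneg hA (norm_nonneg _))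
        · exact mul_le_mul (h0 y hy) (hG.b2 x hx y hy) (norm_nonneg _)
            ((abs_nonneg _).trans (h0 y hy))
    _ = (C₁ * A ^ 2 + C₀ * A) * ‖x - y‖ := by ring

lemma PCI_d1 (hA2 : A ≤ 1 / 2) (hG : CB s A G) {x : V} (hx : x ∈ s) :
    HasFDerivAt (fun x => Real.sqrt (1 + G x)) ((1 / 2 * (Real.sqrt (1 + G x))⁻¹) • fderiv ℝ G x) x := by
  have h1 : HasFDerivAt (fun x => 1 + G x) (fderiv ℝ G x) x := (hG.diff x hx).hasFDerivAt.const_add 1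
  have h2 := h1.sqrt (by have := (PCI_pos hA2 hG hx).1; intro h; linarith)
  have e : (1 / 2 * (Real.sqrt (1 + G x))⁻¹ : ℝ) = 1 / (2 * Real.sqrt (1 + G x)) := by
    rw [one_div, one_div, mul_inv]
  rw [e]
  exact h2

lemma PCI_d2 (hA2 : A ≤ 1 / 2) (hG : CB s A G) {x : V} (hx : x ∈ s) :
    HasFDerivAt (fun x => (Real.sqrt (1 + G x))⁻¹)
      ((-(1 / 2) * (Real.sqrt (1 + G x))⁻¹ ^ 3) • fderiv ℝ G x) x := by
  have h1 := PCI_d1 hA2 hG hx
  have ha := PCI_sqrt hA2 hG hx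
  have h2 : HasDerivAt (fun u : ℝ => u⁻¹) (-((Real.sqrt (1 + G x)) ^ 2)⁻¹) (Real.sqrt (1 + G x)) :=
    hasDerivAt_inv (by intro h; rw [h] at ha; norm_num at ha)
  have h3 := h2.comp_hasFDerivAt x h1
  have e : (-(1 / 2) * (Real.sqrt (1 + G x))⁻¹ ^ 3) • fderiv ℝ G x =
      (-((Real.sqrt (1 + G x)) ^ 2)⁻¹) • ((1 / 2 * (Real.sqrt (1 + G x))⁻¹) • fderiv ℝ G x) := by
    rw [smul_smul]
    congr 1
    rw [← inv_pow]
    ring
  rw [e]
  exact h3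

end PCIaux

theorem PCI_proof : PCI_stmt := by
  intro V _ _ s A G hs hA hA2 hG
  constructor
  · have hf : ∀ x ∈ s, fderiv ℝ (fun x => Real.sqrt (1 + G x) - 1) x =
        (1 / 2 * (Real.sqrt (1 + G x))⁻¹) • fderiv ℝ G x := fun x hx =>
      ((PCI_d1 hA2 hG hx).sub_const 1).fderiv
    have hc0 : ∀ x ∈ s, |1 / 2 * (Real.sqrt (1 + G x))⁻¹| ≤ 3 / 4 := by
      intro x hx
      have hp := PCI_inv hA2 hG hx
      rw [abs_of_nonneg (by linarith [hp.1])]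
      linarith [hp.2]
    have hc1 : ∀ x ∈ s, ∀ y ∈ s, |1 / 2 * (Real.sqrt (1 + G x))⁻¹ - 1 / 2 * (Real.sqrt (1 + G y))⁻¹| ≤
        9 / 8 * |G x - G y| := by
      intro x hx y hy
      have h := PCI_invsub hA2 hG hx hy
      rw [← mul_sub, abs_mul, abs_of_pos (by norm_num : (0 : ℝ) < 1 / 2)]
      linarith
    refine ⟨fun x hx => ((PCI_d1 hA2 hG hx).sub_const 1).differentiableAt, ?_, ?_, ?_⟩
    · intro x hx
      have ha := PCI_sqrt hA2 hG hx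
      have hpx := (PCI_pos hA2 hG hx).1
      have ha2 : Real.sqrt (1 + G x) * Real.sqrt (1 + G x) = 1 + G x := Real.mul_self_sqrt (by linarith)
      have hb := hG.b0 x hx
      rw [Real.norm_eq_abs] at hb ⊢
      set a := Real.sqrt (1 + G x) with hadef
      have h1 : G x = (a - 1) * (a + 1) := by nlinarith
      rw [h1, abs_mul, abs_of_pos (by linarith : (0 : ℝ) < a + 1)] at hb
      nlinarith [abs_nonneg (a - 1)]
    · intro x hx
      rw [hf x hx, norm_smul, Real.norm_eq_abs]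
      calc |1 / 2 * (Real.sqrt (1 + G x))⁻¹| * ‖fderiv ℝ G x‖ ≤ 3 / 4 * A :=
            mul_le_mul (hc0 x hx) (hG.b1 x hx) (norm_nonneg _) (by norm_num)
        _ ≤ 10 * A := by linarith
    · intro x hx y hy
      rw [hf x hx, hf y hy]
      refine (PCI_smul hs hA hG (fun x => 1 / 2 * (Real.sqrt (1 + G x))⁻¹) (3 / 4) (9 / 8)
        (by norm_num) hc0 hc1 hx hy).trans ?_
      refine mul_le_mul_of_nonneg_right ?_ (norm_nonneg _)
      nlinarith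
  · have hf : ∀ x ∈ s, fderiv ℝ (fun x => (Real.sqrt (1 + G x))⁻¹) x =
        (-(1 / 2) * (Real.sqrt (1 + G x))⁻¹ ^ 3) • fderiv ℝ G x := fun x hx =>
      (PCI_d2 hA2 hG hx).fderiv
    have hc0 : ∀ x ∈ s, |-(1 / 2) * (Real.sqrt (1 + G x))⁻¹ ^ 3| ≤ 27 / 16 := by
      intro x hx
      have hp := PCI_inv hA2 hG hx
      have h3 : (Real.sqrt (1 + G x))⁻¹ ^ 3 ≤ (3 / 2 : ℝ) ^ 3 := pow_le_pow_left₀ hp.1.le hp.2 3
      have h4 : 0 < (Real.sqrt (1 + G x))⁻¹ ^ 3 := pow_pos hp.1 3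
      rw [abs_mul, abs_of_pos h4, abs_of_neg (by norm_num : (-(1 / 2) : ℝ) < 0)]
      norm_num at h3 ⊢
      linarith
    have hc1 : ∀ x ∈ s, ∀ y ∈ s, |-(1 / 2) * (Real.sqrt (1 + G x))⁻¹ ^ 3 -
        -(1 / 2) * (Real.sqrt (1 + G y))⁻¹ ^ 3| ≤ 8 * |G x - G y| := by
      intro x hx y hy
      have h := PCI_invsub hA2 hG hx hy
      have hp := PCI_inv hA2 hG hx
      have hq := PCI_inv hA2 hG hy
      set p := (Real.sqrt (1 + G x))⁻¹ with hpdef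
      set q := (Real.sqrt (1 + G y))⁻¹ with hqdef
      have e : -(1 / 2) * p ^ 3 - -(1 / 2) * q ^ 3 = -((p - q) * (1 / 2 * (p ^ 2 + p * q + q ^ 2))) := by
        ring
      have h5 : 0 ≤ 1 / 2 * (p ^ 2 + p * q + q ^ 2) := by
        have := mul_pos hp.1 hq.1
        positivity
      have h6 : 1 / 2 * (p ^ 2 + p * q + q ^ 2) ≤ 27 / 8 := by
        nlinarith [hp.1, hp.2, hq.1, hq.2]
      rw [e, abs_neg, abs_mul, abs_of_nonneg h5]
      calc |p - q| * (1 / 2 * (p ^ 2 + p * q + q ^ 2)) ≤ (9 / 4 * |G x - G y|) * (27 / 8) :=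
            mul_le_mul h h6 h5 (by positivity)
        _ ≤ 8 * |G x - G y| := by nlinarith [abs_nonneg (G x - G y)]
    refine ⟨fun x hx => (PCI_d2 hA2 hG hx).differentiableAt, ?_, ?_, ?_⟩
    · intro x hx
      have hp := PCI_inv hA2 hG hx
      rw [Real.norm_eq_abs, abs_of_pos hp.1]
      linarith [hp.2]
    · intro x hx
      rw [hf x hx, norm_smul, Real.norm_eq_abs]
      calc |-(1 / 2) * (Real.sqrt (1 + G x))⁻¹ ^ 3| * ‖fderiv ℝ G x‖ ≤ 27 / 16 * A :=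
            mul_le_mul (hc0 x hx) (hG.b1 x hx) (norm_nonneg _) (by norm_num)
        _ ≤ 10 := by linarith
    · intro x hx y hy
      rw [hf x hx, hf y hy]
      refine (PCI_smul hs hA hG (fun x => -(1 / 2) * (Real.sqrt (1 + G x))⁻¹ ^ 3) (27 / 16) 8
        (by norm_num) hc0 hc1 hx hy).trans ?_
      refine mul_le_mul_of_nonneg_right ?_ (norm_nonneg _)
      nlinarith

end Pool.Agent.VQE
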